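import Mathlib
import Pool.Agent.H313UT.Classes
import Pool.Agent.H313UT.Full

/-!
A complete `∃₂`-axiomatizable theory in a countable relational language with an unbounded type.
-/

set_option autoImplicit false

namespace Pool.Agent.Results.MP_ba14eb_lc.UnboundedType

open FirstOrder FirstOrder.Language H313UT

/-- There are a countable relational language `L` and a complete `L`-theory `T` that is
axiomatizable by `∃₂`-sentences and has an unbounded complete type. -/
theorem result : ∃ (L : FirstOrder.Language.{0, 0}) (T : L.Theory), L.IsRelational ∧
    Countable L.Symbols ∧ T.IsComplete ∧ Axiomatizable false 2 T ∧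
    ∃ (m : ℕ) (p : T.CompleteType (Fin m)), ¬ Bounded p.toTheory :=
  full

end Pool.Agent.Results.MP_ba14eb_lc.UnboundedType
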